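import Pool.Agent.helper61.Y2.Spec

/-!
# Project Y2, row U1: the coded set of strings is thin
-/

set_option autoImplicit false

namespace H61.Y2

open H61.Yorioka Cardinal

theorem U1_KK_succ (j : ℕ) : KK (j + 1) = KK j * KK j := by
  unfold KK
  rw [← pow_add]
  congr 1
  rw [pow_succ]
  ring

theorem U1_KK_mono {i j : ℕ} (h : i ≤ j) : KK i ≤ KK j := by
  unfold KK
  exact Nat.pow_le_pow_right (by norm_num) (Nat.pow_le_pow_right (by norm_num) h)

theorem U1_two_le (j : ℕ) : 2 ≤ KK j := by
  have : KK 0 ≤ KK j := U1_KK_mono (Nat.zero_le j)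
  simpa [KK] using this

theorem U1_lt_KK (j : ℕ) : j < KK j := by
  unfold KK
  exact lt_trans j.lt_two_pow_self (2 ^ j).lt_two_pow_self

theorem U1_double (j : ℕ) : KK j + KK j ≤ KK (j + 1) := by
  rw [U1_KK_succ]
  have := U1_two_le j
  nlinarith

theorem U1_pow (a k : ℕ) : KK a ^ k ≤ KK (a + k) := by
  unfold KK
  rw [← pow_mul, pow_add]
  exact Nat.pow_le_pow_right (by norm_num) (Nat.mul_le_mul_left _ k.lt_two_pow_self.le)

theorem U1_sum (M : ℕ) : ∑ j ∈ Finset.range (M + 1), KK (j + 1) ≤ KK (M + 2) := by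
  induction M with
  | zero =>
    simp only [zero_add, Finset.range_one, Finset.sum_singleton]
    exact U1_KK_mono (by norm_num)
  | succ M ih =>
    rw [Finset.sum_range_succ]
    have := U1_double (M + 2)
    have e : KK (M + 1 + 2) = KK (M + 2 + 1) := rfl
    have e' : KK (M + 1 + 1) = KK (M + 2) := rfl
    omega

theorem U1_sum' (a : ℕ → ℕ) (m₁ : ℕ) (h : ∀ j ≥ m₁, a j ≤ KK (j + 1)) (M : ℕ) :
    ∑ j ∈ Finset.range (M + 1), a j ≤ ∑ j ∈ Finset.range m₁, a j + KK (M + 2) := by
  have h1 : ∀ j ∈ Finset.range (M + 1), a j ≤ (if j < m₁ then a j else 0) + KK (j + 1) := by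
    intro j _
    by_cases hj : j < m₁
    · rw [if_pos hj]; exact Nat.le_add_right _ _
    · rw [if_neg hj, zero_add]; exact h j (not_lt.1 hj)
  calc ∑ j ∈ Finset.range (M + 1), a j
      ≤ ∑ j ∈ Finset.range (M + 1), ((if j < m₁ then a j else 0) + KK (j + 1)) :=
        Finset.sum_le_sum h1
    _ = ∑ j ∈ Finset.range (M + 1), (if j < m₁ then a j else 0) +
          ∑ j ∈ Finset.range (M + 1), KK (j + 1) := Finset.sum_add_distrib
    _ ≤ ∑ j ∈ Finset.range m₁, a j + KK (M + 2) := by
        refine Nat.add_le_add ?_ (U1_sum M)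
        rw [← Finset.sum_filter]
        refine Finset.sum_le_sum_of_subset fun j hj => ?_
        rw [Finset.mem_filter] at hj
        exact Finset.mem_range.2 hj.2

open Classical in
/-- The strings of level `j`. -/
noncomputable def U1_lev (f u : ℕ → ℕ) (A : ℕ → Finset (List Bool)) (j : ℕ) : Finset (List Bool) :=
  (level (2 ^ j) ×ˢ A j).image fun q =>
    q.1 ++ (q.2 ++ List.replicate (f (KK (j + u j)) - (2 ^ j + f (KK j))) false)

theorem U1_lev_card (f u : ℕ → ℕ) (A : ℕ → Finset (List Bool)) (j : ℕ) :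
    (U1_lev f u A j).card ≤ KK j * (A j).card := by
  unfold U1_lev
  refine Finset.card_image_le.trans ?_
  rw [Finset.card_product, card_level]
  exact le_rfl

theorem U1 : U1_stmt := by
  intro f u A hf hu hA k
  obtain ⟨m₁, hm₁⟩ := hA.wid 1
  obtain ⟨J₁, hJ₁⟩ := hu.unb (3 + k)
  set C : ℕ := ∑ j ∈ Finset.range m₁, KK j * (A j).card with hC
  set J₀ : ℕ := max J₁ C with hJ₀
  refine ⟨KK (J₀ + 3 + k), fun N hN => ?_⟩
  classical
  set g : ℕ := Nat.findGreatest (fun j => KK (j + u j) < N) N with hg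
  set M : ℕ := max J₀ g with hM
  have hR : ∀ j, KK (j + u j) < N → j ≤ M := by
    intro j hj
    have h1 : j ≤ N := by
      have := U1_lt_KK j
      have := U1_KK_mono (Nat.le_add_right j (u j))
      omega
    exact (Nat.le_findGreatest (P := fun j => KK (j + u j) < N) h1 hj).trans (le_max_right _ _)
  have hcn : cn (TU f u A) (f N) ≤ ∑ j ∈ Finset.range (M + 1), KK j * (A j).card := by
    unfold cn
    have hsub : {t | t ∈ TU f u A ∧ t.length < f N} ⊆
        (((Finset.range (M + 1)).biUnion (U1_lev f u A) : Finset (List Bool)) : Set (List Bool)) := by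
      rintro t ⟨⟨j, s, hs, p, hp, rfl⟩, hlen⟩
      rw [Finset.mem_coe, Finset.mem_biUnion]
      refine ⟨j, ?_, ?_⟩
      · rw [Finset.mem_range, Nat.lt_succ_iff]
        apply hR
        have h1 := hA.len j s hs
        rw [List.length_append, List.length_append, List.length_replicate, hp, h1] at hlen
        have h2 : f (KK (j + u j)) < f N := by omega
        exact hf.lt_iff_lt.1 h2
      · unfold U1_lev
        rw [Finset.mem_image]
        exact ⟨(p, s), Finset.mem_product.2 ⟨mem_level.2 hp, hs⟩, rfl⟩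
    calc {t | t ∈ TU f u A ∧ t.length < f N}.ncard
        ≤ (((Finset.range (M + 1)).biUnion (U1_lev f u A) : Finset (List Bool)) :
            Set (List Bool)).ncard := Set.ncard_le_ncard hsub (Finset.finite_toSet _)
      _ = ((Finset.range (M + 1)).biUnion (U1_lev f u A)).card := Set.ncard_coe_finset _
      _ ≤ ∑ j ∈ Finset.range (M + 1), (U1_lev f u A j).card := Finset.card_biUnion_le
      _ ≤ ∑ j ∈ Finset.range (M + 1), KK j * (A j).card :=
          Finset.sum_le_sum fun j _ => U1_lev_card f u A j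
  have hsum := U1_sum' (fun j => KK j * (A j).card) m₁ (fun j hj => by
    rw [U1_KK_succ]
    have := hm₁ j hj
    rw [pow_one] at this
    exact Nat.mul_le_mul_left _ this) M
  have hCM : C ≤ KK (M + 2) := by
    have h1 : C ≤ J₀ := le_max_right _ _
    have h2 : J₀ ≤ M := le_max_left _ _
    have h3 := U1_lt_KK M
    have h4 := U1_KK_mono (Nat.le_add_right M 2)
    omega
  have hb : cn (TU f u A) (f N) ≤ KK (M + 3) := by
    have := U1_double (M + 2)
    have e : KK (M + 2 + 1) = KK (M + 3) := rfl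
    have h5 : ∑ j ∈ Finset.range (M + 1), KK j * (A j).card ≤ C + KK (M + 2) := hsum
    omega
  have hb2 : cn (TU f u A) (f N) ^ k ≤ KK (M + 3 + k) :=
    (Nat.pow_le_pow_left hb k).trans (U1_pow _ _)
  refine hb2.trans ?_
  by_cases hgJ : g ≤ J₀
  · have : M = J₀ := max_eq_left hgJ
    rw [this]
    exact hN
  · have hMg : M = g := max_eq_right (not_le.1 hgJ).le
    have hg0 : g ≠ 0 := by omega
    have hPg : KK (g + u g) < N := Nat.findGreatest_of_ne_zero (P := fun j => KK (j + u j) < N)
      hg.symm hg0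
    have h6 : 3 + k ≤ u g := by
      have h7 : J₁ ≤ g := by
        have : J₁ ≤ J₀ := le_max_left _ _
        omega
      exact hJ₁.trans (hu.mono h7)
    rw [hMg]
    have h8 : KK (g + 3 + k) ≤ KK (g + u g) := U1_KK_mono (by omega)
    omega

end H61.Y2
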